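import Pool.Agent.Helper29.AR.Props
import Pool.Agent.Helper69.SR.XMax

/-!
# MP_b55b7c_an: approximate stable rank one, a maximal multiplier

Packet AR-XMaxL of helper29: the goal `XMaxLP` from `SelP`, `CoreLP`, `DisjLP` and `RkP`
(adapted from `Pool/Agent/Helper69/SR/XMax.lean`).
-/

open scoped ENNReal NNReal InnerProductSpace ComplexOrder
open Filter Topology

attribute [-instance] CStarMatrix.instAlgebra CStarMatrix.instModule CStarMatrix.instSMul
  CStarMatrix.instMulAction CStarMatrix.instDistribMulAction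

noncomputable section
namespace RC
universe u

/-- The goal `XMaxLP`. -/
theorem xMaxLP (hSel : SelP.{u}) (hCore : CoreLP.{u}) (hDisj : DisjLP.{u}) (hRk : RkP.{u}) :
    XMaxLP.{u} := by
  intro M _ _ _ hM a b ha hb hlt δ ε hδ hε
  obtain ⟨m, hm⟩ := exists_nat_gt (4 / ε)
  have hm0 : (0 : ℝ) < m := lt_trans (by positivity) hm
  have hm1 : 1 < m * (ε / 4) := by
    rw [div_lt_iff₀ hε] at hm
    linarith
  have hmN : 0 < m := by exact_mod_cast hm0
  have : Nonempty (Fin m) := ⟨⟨0, hmN⟩⟩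
  set t : ℕ → ℝ := fun i => δ / 2 * ((m - i + 1) / (m + 1)) with ht
  have htpos : ∀ i : ℕ, i ≤ m → 0 < t i := by
    intro i hi
    have : (i : ℝ) ≤ m := by exact_mod_cast hi
    have h1 : (0 : ℝ) < m - i + 1 := by linarith
    simp only [ht]
    positivity
  have htlt : ∀ i : ℕ, t (i + 1) < t i := by
    intro i
    simp only [ht]
    apply mul_lt_mul_of_pos_left _ (by positivity)
    apply div_lt_div_of_pos_right _ (by positivity)
    push_cast
    linarith
  have htle : ∀ i : ℕ, t i ≤ δ / 2 := by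
    intro i
    simp only [ht]
    have h1 : ((m : ℝ) - i + 1) / (m + 1) ≤ 1 := by
      rw [div_le_one (by positivity)]
      have : (0 : ℝ) ≤ i := Nat.cast_nonneg i
      linarith
    have : δ / 2 * ((m - i + 1) / (m + 1)) ≤ δ / 2 * 1 :=
      mul_le_mul_of_nonneg_left h1 (by positivity)
    linarith
  have hS : ∀ i : Fin m, ∃ (n : ℕ) (X : Fin n → M) (r C : ℝ), 0 < r ∧
      (∀ k, sq (b * X k * a) ≤ C • cut a (t (i + 1))) ∧
      ∀ φ : TState M, ∃ k, (φ.φ (cfc (ramp (t (i + 1)) (t i)) a)).re - ε / 4 <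
        (φ.φ (cfc (ramp r (2 * r)) (sq (b * X k * a)))).re := fun i =>
    hSel M a b ha hb hlt (t (i + 1)) (t i) (ε / 4) (htpos _ i.2) (htlt i) (by positivity)
  choose n X r C hr hC hsel using hS
  obtain ⟨i₀, hi₀⟩ := Finite.exists_min r
  set ε₀ := r i₀ / 2 with hε₀
  have hε₀p : 0 < ε₀ := by
    have := hr i₀
    positivity
  have hε₀r : ∀ i, 2 * ε₀ ≤ r i := by
    intro i
    have := hi₀ i
    rw [hε₀]
    linarith
  have hε8 : 0 < ε / 8 := by positivity
  obtain ⟨Y, d, Lo, hd, hBel⟩ := hCore M hM a b ε₀ (ε / 8) hε₀p hε8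
    (Fintype.card (Σ i, Fin (n i)))
    (fun j => X ((Fintype.equivFin (Σ i, Fin (n i))).symm j).1
      ((Fintype.equivFin (Σ i, Fin (n i))).symm j).2)
  have hBel' : ∀ i k, ∃ L : M, 0 ≤ L ∧ SmT (ε / 8) L ∧
      BelL ε₀ d (b * X i k * a) (b * Y * a) L := by
    intro i k
    have := hBel (Fintype.equivFin (Σ i, Fin (n i)) ⟨i, k⟩)
    rw [Equiv.symm_apply_apply] at this
    exact ⟨_, this⟩
  set θ := min (ε₀ ^ 2 / 2) (ε / 4) with hθ
  have hθp : 0 < θ := lt_min (by positivity) (by positivity)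
  have hθ1 : θ ≤ ε₀ ^ 2 / 2 := min_le_left _ _
  have hθ2 : θ ≤ ε / 4 := min_le_right _ _
  refine ⟨Y, d * θ / 6, by positivity, fun φ => ?_⟩
  set V := b * Y * a with hV
  set η := d * θ / 6 with hη
  have hηp : 0 < η := by positivity
  obtain ⟨hy0, hy1, hy2⟩ := xm_y_bounds a V ha δ η hδ
  have hVy := xm_V_small (cfc (ramp (δ / 2) δ) a) V (cfc_predicate _ a) η hηp
  set y := cfc (ramp (δ / 2) δ) a * (1 - cfc (ramp (η / 2) η) (cfc (ramp (δ / 2) δ) a * sq V *
        cfc (ramp (δ / 2) δ) a)) * cfc (ramp (δ / 2) δ) a with hy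
  obtain ⟨σ, hσ⟩ := qOfTP M φ
  have hfin := xm_tr_le φ σ hσ y hy0 hy1 θ hθp.le
  have hstep : ∀ i : Fin m, σ.dim (one1 (cut y θ)) ≤
      σ.dim (one1 (cut a (t (i + 1)))) - σ.dim (one1 (cut a (t i))) + 3 * ε / 8 := by
    intro i
    obtain ⟨k, hk⟩ := hsel i φ
    obtain ⟨L, hL0, hLs, hLB⟩ := hBel' i k
    have hLd := hLs φ σ hσ
    set c := sq (b * X i k * a) with hc
    have hc0 : 0 ≤ c := xm_sq_nonneg _
    have h1 : y + cut c ε₀ * cut c ε₀ ≤ (2 / δ + ‖c‖ * C i) • cut a (t (i + 1)) := by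
      rw [add_smul]
      refine add_le_add ?_ ?_
      · refine hy2.trans ?_
        exact smul_le_smul_of_nonneg_left (xm_cut_mono a (htle _)) (by positivity)
      · refine (xm_F_le c hc0 ε₀ hε₀p.le).trans ?_
        rw [mul_smul]
        exact smul_le_smul_of_nonneg_left (hC i k) (norm_nonneg _)
    have h2 := hDisj M V y (cut c ε₀) (cut a (t (i + 1))) L d θ (2 / δ + ‖c‖ * C i) hy0
      (cut_sa _ _) (cut_nonneg _ _) hL0 hd hθp hVy hLB h1 σ
    have h3 := (hRk M φ σ hσ c hc0 (ramp (r i) (2 * r i))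
      (fun τ => max (max (τ - ε₀) 0 * max (τ - ε₀) 0 - θ) 0) (xm_ramp_cont _ _)
      (by fun_prop) (fun τ => xm_ramp_nonneg _ _ τ) (fun τ => le_max_right _ _)).1
      (fun τ => xm_ramp_le_one _ _ τ) (by
        intro τ hτ
        by_contra hne
        have hri := hr i
        have hτr : r i < τ := by
          by_contra hcon
          exact hne (xm_ramp_eq_zero (by linarith) (not_lt.1 hcon))
        have h5 := hε₀r i
        have h6 : ε₀ ≤ τ - ε₀ := by linarith
        have h7 : max (τ - ε₀) 0 = τ - ε₀ := max_eq_left (by linarith)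
        simp only [h7] at hτ
        have h8 : (τ - ε₀) * (τ - ε₀) - θ ≤ 0 := by
          rw [← hτ]
          exact le_max_left _ _
        nlinarith)
    rw [xm_cutFF c hc0] at h3
    have h4 := (hRk M φ σ hσ a ha (ramp (t (i + 1)) (t i))
      (fun τ => max (τ - t i) 0) (xm_ramp_cont _ _)
      (by fun_prop) (fun τ => xm_ramp_nonneg _ _ τ) (fun τ => le_max_right _ _)).2
      (by
        intro τ hτ
        have hτt : t i < τ := by
          by_contra hcon
          exact hτ (max_eq_right (by linarith [not_lt.1 hcon]))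
        rw [xm_ramp_eq_one (htlt i) hτt.le])
    have h5 : cfc (fun τ => max (τ - t i) 0) a = cut a (t i) := rfl
    rw [h5] at h4
    linarith
  have hsum : ∀ j : ℕ, j ≤ m → (j : ℝ) * σ.dim (one1 (cut y θ)) ≤
      σ.dim (one1 (cut a (t j))) - σ.dim (one1 (cut a (t 0))) + j * (3 * ε / 8) := by
    intro j
    induction j with
    | zero => intro _; simp
    | succ j ih =>
      intro hj
      have h1 := ih (by omega)
      have h2 := hstep ⟨j, by omega⟩
      simp only at h2
      push_cast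
      linarith
  have hm' := hsum m le_rfl
  have hb0 := (qBasicP M σ Unit (one1 (cut a (t 0))) (one1_nonneg (cut_nonneg _ _))).2.1
  have hb1 := (qBasicP M σ Unit (one1 (cut a (t m))) (one1_nonneg (cut_nonneg _ _))).2.2.1
  simp only [Fintype.card_unit, Nat.cast_one] at hb1
  have h9 : (m : ℝ) * σ.dim (one1 (cut y θ)) ≤ m * (5 * ε / 8) := by
    nlinarith
  have h10 : σ.dim (one1 (cut y θ)) ≤ 5 * ε / 8 := le_of_mul_le_mul_left h9 hm0
  linarith

end RC
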